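import Mathlib

/-!
# The largest square in an odd-dimensional unit cube

`f(2, 2n+1) = √((8n+1)/8)` for every `n ≥ 1`.

Let `a`, `b` be the diagonals of a square of edge `s` inscribed in the cube of dimension
`N = 2n+1`. Then `a · b = 0`, `|a|² = |b|² = 2 s²` and all coordinates of `a`, `b` are in `[-1,1]`.
If `2 s² > N - 3/4`, then `∑ (1 - a_i²) < 3/4`, hence `∑ (1 - |a_i|) < 1/2`, in the same way
`∑ (1 - |b_i|) < 1/2`, and so `∑ (1 - |a_i b_i|) < 1`. But `∑ a_i b_i = 0`, so the sum of the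
`N` signs of the numbers `a_i b_i` is less than `1` in absolute value, and it is an odd integer.
-/

set_option autoImplicit false

namespace Pool.Agent.Results.MP_befaea_co.ExactValue

open Finset

/-- The unit cube `[0,1]^n` in Euclidean space. -/
def unitCube (n : ℕ) : Set (EuclideanSpace ℝ (Fin n)) := {x | ∀ i, 0 ≤ x i ∧ x i ≤ 1}

/-- The cube `[0,s]^m` in Euclidean space. -/
def cube (m : ℕ) (s : ℝ) : Set (EuclideanSpace ℝ (Fin m)) := {x | ∀ i, 0 ≤ x i ∧ x i ≤ s}

/-- The edges `s ≥ 0` of the `m`-dimensional cubes inscribed in `[0,1]^n`: there is a congruent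
copy of `[0,s]^m` (its image under an affine isometry `ℝ^m → ℝ^n`) contained in `[0,1]^n`. -/
def edges (m n : ℕ) : Set ℝ :=
  {s | 0 ≤ s ∧ ∃ φ : EuclideanSpace ℝ (Fin m) →ᵃⁱ[ℝ] EuclideanSpace ℝ (Fin n),
    φ '' cube m s ⊆ unitCube n}

/-- `f(m,n)`: the largest edge of an `m`-dimensional cube inscribed in `[0,1]^n`. -/
noncomputable def f (m n : ℕ) : ℝ := sSup (edges m n)

/-! ### The upper bound -/

theorem sum_half {ι : Type*} (S : Finset ι) (a : ι → ℝ) (ha : ∀ i ∈ S, |a i| ≤ 1)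
    (h : ∑ i ∈ S, (1 - a i ^ 2) < 3 / 4) : ∑ i ∈ S, (1 - |a i|) < 1 / 2 := by
  by_contra hcon
  push Not at hcon
  set Y : ℝ := ∑ i ∈ S, (1 - |a i|) with hY
  have h1 : ∀ i ∈ S, 1 - a i ^ 2 = 2 * (1 - |a i|) - (1 - |a i|) ^ 2 := by
    intro i _
    have : a i ^ 2 = |a i| ^ 2 := (sq_abs _).symm
    rw [this]; ring
  have h2 : ∑ i ∈ S, (1 - a i ^ 2) = 2 * Y - ∑ i ∈ S, (1 - |a i|) ^ 2 := by
    rw [Finset.sum_congr rfl h1, Finset.sum_sub_distrib, ← Finset.mul_sum]
  have h0 : ∀ i ∈ S, 0 ≤ 1 - |a i| := fun i hi => by linarith [ha i hi]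
  have h3 : ∑ i ∈ S, (1 - |a i|) ^ 2 ≤ Y ^ 2 := by
    rw [hY]
    exact Finset.sum_sq_le_sq_sum_of_nonneg h0
  have h4 : ∑ i ∈ S, (1 - |a i|) ^ 2 ≤ Y := by
    rw [hY]
    apply Finset.sum_le_sum
    intro i hi
    have := h0 i hi
    have := abs_nonneg (a i)
    nlinarith
  rcases le_total Y (3 / 2) with h5 | h5
  · nlinarith
  · linarith

theorem odd_sum_sign {ι : Type*} (S : Finset ι) (hS : Odd S.card) (e : ι → ℤ)
    (he : ∀ i ∈ S, e i = 1 ∨ e i = -1) : Odd (∑ i ∈ S, e i) := by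
  classical
  have : ∀ T : Finset ι, T ⊆ S → (Odd (∑ i ∈ T, e i) ↔ Odd T.card) := by
    intro T
    induction T using Finset.induction_on with
    | empty => intro _; simp
    | insert x T hx ih =>
      intro hT
      have h1 := ih ((Finset.subset_insert x T).trans hT)
      rw [Finset.sum_insert hx, Finset.card_insert_of_notMem hx]
      have h2 : Odd (e x) := by
        rcases he x (hT (Finset.mem_insert_self x T)) with h | h <;> rw [h] <;> decide
      rw [Int.odd_add, Nat.odd_add]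
      constructor
      · intro h
        have h3 := h.1 h2
        have h4 : ¬ Odd (∑ i ∈ T, e i) := by rwa [Int.not_odd_iff_even]
        have h5 : ¬ Odd T.card := fun h' => h4 (h1.2 h')
        constructor
        · intro h6; exact absurd h6 h5
        · intro h6; exact absurd h6 (by decide)
      · intro h
        have h5 : ¬ Odd T.card := fun h' => by
          have := h.1 h'
          exact absurd this (by decide)
        have h4 : ¬ Odd (∑ i ∈ T, e i) := fun h' => h5 (h1.1 h')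
        rw [Int.not_odd_iff_even] at h4
        exact ⟨fun _ => h4, fun _ => h2⟩
  exact (this S subset_rfl).2 hS

/-- The main estimate. -/
theorem key {ι : Type*} (S : Finset ι) (hS : Odd S.card) (a b : ι → ℝ)
    (ha : ∀ i ∈ S, |a i| ≤ 1) (hb : ∀ i ∈ S, |b i| ≤ 1) (hab : ∑ i ∈ S, a i * b i = 0)
    (h1 : ∑ i ∈ S, (1 - a i ^ 2) < 3 / 4) (h2 : ∑ i ∈ S, (1 - b i ^ 2) < 3 / 4) : False := by
  classical
  have h3 := sum_half S a ha h1
  have h4 := sum_half S b hb h2
  set e : ι → ℤ := fun i => if 0 ≤ a i * b i then 1 else -1 with he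
  have hodd : Odd (∑ i ∈ S, e i) := by
    apply odd_sum_sign S hS
    intro i _
    by_cases h : 0 ≤ a i * b i
    · left; simp [he, h]
    · right; simp [he, h]
  have h5 : |((∑ i ∈ S, e i : ℤ) : ℝ)| < 1 := by
    have h6 : ((∑ i ∈ S, e i : ℤ) : ℝ) = ∑ i ∈ S, ((e i : ℝ) - a i * b i) := by
      rw [Finset.sum_sub_distrib, hab, sub_zero]
      push_cast
      rfl
    rw [h6]
    calc |∑ i ∈ S, ((e i : ℝ) - a i * b i)| ≤ ∑ i ∈ S, |(e i : ℝ) - a i * b i| :=
          Finset.abs_sum_le_sum_abs _ _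
      _ ≤ ∑ i ∈ S, ((1 - |a i|) + (1 - |b i|)) := by
          apply Finset.sum_le_sum
          intro i hi
          have ha' := ha i hi
          have hb' := hb i hi
          have e1 : |(e i : ℝ) - a i * b i| = 1 - |a i| * |b i| := by
            by_cases h : 0 ≤ a i * b i
            · have e2 : (e i : ℝ) = 1 := by simp [he, h]
              have e3 : |a i| * |b i| = a i * b i := by rw [← abs_mul, abs_of_nonneg h]
              rw [e2, ← e3, abs_of_nonneg]
              have := abs_nonneg (a i)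
              have := abs_nonneg (b i)
              nlinarith
            · have e2 : (e i : ℝ) = -1 := by simp [he, h]
              push Not at h
              have e3 : |a i| * |b i| = -(a i * b i) := by rw [← abs_mul, abs_of_neg h]
              rw [e2, e3]
              have e4 : (-1 : ℝ) - a i * b i = -(1 - -(a i * b i)) := by ring
              rw [e4, abs_neg, ← e3, abs_of_nonneg]
              have := abs_nonneg (a i)
              have := abs_nonneg (b i)
              nlinarith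
          rw [e1]
          nlinarith
      _ = ∑ i ∈ S, (1 - |a i|) + ∑ i ∈ S, (1 - |b i|) := Finset.sum_add_distrib
      _ < 1 := by linarith
  have h7 : |∑ i ∈ S, e i| < 1 := by exact_mod_cast h5
  rw [Int.abs_lt_one_iff] at h7
  rw [h7] at hodd
  exact absurd hodd (by decide)

theorem upper (n : ℕ) (s : ℝ) (hs : s ∈ edges 2 (2 * n + 1)) : s ≤ √((8 * n + 1) / 8) := by
  obtain ⟨h0, φ, hφ⟩ := hs
  apply Real.le_sqrt_of_sq_le
  by_contra hcon
  push Not at hcon
  set p := φ 0 with hp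
  set e0 : EuclideanSpace ℝ (Fin 2) := EuclideanSpace.single 0 1 with he0
  set e1 : EuclideanSpace ℝ (Fin 2) := EuclideanSpace.single 1 1 with he1
  set u := φ.linearIsometry e0 with hu
  set v := φ.linearIsometry e1 with hv
  have hval : ∀ x y : ℝ, φ (x • e0 + y • e1) = p + x • u + y • v := by
    intro x y
    have h1 : φ (x • e0 + y • e1) = φ ((x • e0 + y • e1) +ᵥ (0 : EuclideanSpace ℝ (Fin 2))) := by
      rw [vadd_eq_add, add_zero]
    rw [h1, AffineIsometry.map_vadd, vadd_eq_add, map_add, map_smul, map_smul]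
    abel
  have hmem : ∀ x y : ℝ, 0 ≤ x → x ≤ s → 0 ≤ y → y ≤ s → ∀ i,
      0 ≤ p i + x * u i + y * v i ∧ p i + x * u i + y * v i ≤ 1 := by
    intro x y hx hx' hy hy' i
    have h1 : φ (x • e0 + y • e1) ∈ unitCube (2 * n + 1) := by
      apply hφ
      refine ⟨_, ?_, rfl⟩
      intro j
      fin_cases j
      · simp [he0, he1, hx, hx']
      · simp [he0, he1, hy, hy']
    rw [hval] at h1
    have h2 := h1 i
    simpa using h2
  have hu1 : ‖u‖ = 1 := by rw [hu, LinearIsometry.norm_map]; simp [he0]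
  have hv1 : ‖v‖ = 1 := by rw [hv, LinearIsometry.norm_map]; simp [he1]
  have huv : inner ℝ u v = 0 := by
    rw [hu, hv, LinearIsometry.inner_map_map]
    simp [he0, he1, EuclideanSpace.inner_single_left]
  have su : ∑ i, u i ^ 2 = 1 := by
    have := EuclideanSpace.real_norm_sq_eq u
    rw [hu1] at this
    rw [← this]; norm_num
  have sv : ∑ i, v i ^ 2 = 1 := by
    have := EuclideanSpace.real_norm_sq_eq v
    rw [hv1] at this
    rw [← this]; norm_num
  have suv : ∑ i, u i * v i = 0 := by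
    have h1 : inner ℝ u v = ∑ i, v i * u i := by
      simp [PiLp.inner_apply]
    rw [huv] at h1
    rw [h1]
    exact Finset.sum_congr rfl fun i _ => mul_comm _ _
  have hN : Odd (Finset.univ : Finset (Fin (2 * n + 1))).card := by
    rw [Finset.card_univ, Fintype.card_fin]
    exact ⟨n, rfl⟩
  have hbig : (2 * n + 1 : ℝ) - 2 * s ^ 2 < 3 / 4 := by
    have : (8 * (n : ℝ) + 1) / 8 < s ^ 2 := hcon
    linarith
  refine key Finset.univ hN (fun i => s * (u i + v i)) (fun i => s * (u i - v i)) ?_ ?_ ?_ ?_ ?_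
  · intro i _
    have h1 := hmem 0 0 le_rfl h0 le_rfl h0 i
    have h2 := hmem s s h0 le_rfl h0 le_rfl i
    rw [abs_le]
    constructor <;> nlinarith [h1.1, h1.2, h2.1, h2.2]
  · intro i _
    have h1 := hmem s 0 h0 le_rfl le_rfl h0 i
    have h2 := hmem 0 s le_rfl h0 h0 le_rfl i
    rw [abs_le]
    constructor <;> nlinarith [h1.1, h1.2, h2.1, h2.2]
  · have h1 : ∀ i : Fin (2 * n + 1), s * (u i + v i) * (s * (u i - v i)) =
        s ^ 2 * (u i ^ 2) - s ^ 2 * (v i ^ 2) := fun i => by ring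
    simp only [h1]
    rw [Finset.sum_sub_distrib, ← Finset.mul_sum, ← Finset.mul_sum, su, sv]
    ring
  · have h1 : ∀ i : Fin (2 * n + 1), 1 - (s * (u i + v i)) ^ 2 =
        1 - (s ^ 2 * (u i ^ 2) + s ^ 2 * (v i ^ 2) + 2 * s ^ 2 * (u i * v i)) := fun i => by ring
    simp only [h1]
    rw [Finset.sum_sub_distrib, Finset.sum_add_distrib, Finset.sum_add_distrib, ← Finset.mul_sum,
      ← Finset.mul_sum, ← Finset.mul_sum, su, sv, suv]
    simp
    linarith
  · have h1 : ∀ i : Fin (2 * n + 1), 1 - (s * (u i - v i)) ^ 2 =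
        1 - (s ^ 2 * (u i ^ 2) + s ^ 2 * (v i ^ 2) - 2 * s ^ 2 * (u i * v i)) := fun i => by ring
    simp only [h1]
    rw [Finset.sum_sub_distrib, Finset.sum_sub_distrib, Finset.sum_add_distrib, ← Finset.mul_sum,
      ← Finset.mul_sum, ← Finset.mul_sum, su, sv, suv]
    simp
    linarith

/-! ### The construction -/

/-- First diagonal: `(1, 1/2, 1, …, 1)`. -/
noncomputable def da (n : ℕ) (i : Fin (2 * n + 1)) : ℝ := if (i : ℕ) = 1 then 1 / 2 else 1

/-- Second diagonal: `(1/2, 1, -1, 1, -1, …, -1)`. -/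
noncomputable def db (n : ℕ) (i : Fin (2 * n + 1)) : ℝ :=
  if (i : ℕ) = 0 then 1 / 2 else (-1) ^ ((i : ℕ) + 1)

theorem sum_da (n : ℕ) (hn : 1 ≤ n) : ∑ i, da n i ^ 2 = 2 * n + 1 / 4 := by
  obtain ⟨k, rfl⟩ : ∃ k, n = k + 1 := ⟨n - 1, by omega⟩
  have h := Fin.sum_univ_eq_sum_range (fun j : ℕ => (if j = 1 then (1 / 2 : ℝ) else 1) ^ 2)
    (2 * (k + 1) + 1)
  unfold da
  rw [h]
  have h2 : 2 * (k + 1) + 1 = 2 * k + 1 + 1 + 1 := by ring
  rw [h2, Finset.sum_range_succ', Finset.sum_range_succ']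
  have h3 : ∀ j ∈ Finset.range (2 * k + 1),
      (if j + 1 + 1 = 1 then (1 / 2 : ℝ) else 1) ^ 2 = 1 := by
    intro j _
    rw [if_neg (by omega)]; norm_num
  rw [Finset.sum_congr rfl h3]
  simp
  ring

theorem sum_db (n : ℕ) (hn : 1 ≤ n) : ∑ i, db n i ^ 2 = 2 * n + 1 / 4 := by
  obtain ⟨k, rfl⟩ : ∃ k, n = k + 1 := ⟨n - 1, by omega⟩
  have h := Fin.sum_univ_eq_sum_range
    (fun j : ℕ => (if j = 0 then (1 / 2 : ℝ) else (-1) ^ (j + 1)) ^ 2) (2 * (k + 1) + 1)
  unfold db
  rw [h, Finset.sum_range_succ']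
  have h3 : ∀ j ∈ Finset.range (2 * (k + 1)),
      (if j + 1 = 0 then (1 / 2 : ℝ) else (-1) ^ (j + 1 + 1)) ^ 2 = 1 := by
    intro j _
    rw [if_neg (by omega), ← pow_mul, mul_comm, pow_mul]; norm_num
  rw [Finset.sum_congr rfl h3]
  simp
  ring

theorem alt_sum (k : ℕ) : ∑ j ∈ Finset.range (2 * k + 1), (-1 : ℝ) ^ (j + 1) = -1 := by
  induction k with
  | zero => simp
  | succ k ih =>
    have h2 : 2 * (k + 1) + 1 = 2 * k + 1 + 1 + 1 := by ring
    rw [h2, Finset.sum_range_succ, Finset.sum_range_succ, ih]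
    have h3 : (-1 : ℝ) ^ (2 * k + 1 + 1 + 1) = -1 := Odd.neg_one_pow ⟨k + 1, by ring⟩
    have h4 : (-1 : ℝ) ^ (2 * k + 1 + 1) = 1 := Even.neg_one_pow ⟨k + 1, by ring⟩
    rw [h3, h4]; ring

theorem sum_dab (n : ℕ) (hn : 1 ≤ n) : ∑ i, da n i * db n i = 0 := by
  obtain ⟨k, rfl⟩ : ∃ k, n = k + 1 := ⟨n - 1, by omega⟩
  have h := Fin.sum_univ_eq_sum_range
    (fun j : ℕ => (if j = 1 then (1 / 2 : ℝ) else 1) *
      (if j = 0 then (1 / 2 : ℝ) else (-1) ^ (j + 1))) (2 * (k + 1) + 1)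
  unfold da db
  rw [h]
  have h2 : 2 * (k + 1) + 1 = 2 * k + 1 + 1 + 1 := by ring
  rw [h2, Finset.sum_range_succ', Finset.sum_range_succ']
  have h3 : ∀ j ∈ Finset.range (2 * k + 1),
      (if j + 1 + 1 = 1 then (1 / 2 : ℝ) else 1) *
      (if j + 1 + 1 = 0 then (1 / 2 : ℝ) else (-1) ^ (j + 1 + 1 + 1)) = (-1) ^ (j + 1) := by
    intro j _
    rw [if_neg (by omega), if_neg (by omega), pow_add (-1 : ℝ) (j + 1) (1 + 1)]
    norm_num
  rw [Finset.sum_congr rfl h3, alt_sum]
  norm_num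

theorem abs_da (n : ℕ) (i : Fin (2 * n + 1)) : |da n i| ≤ 1 := by
  unfold da
  split_ifs
  · norm_num
  · norm_num

theorem abs_db (n : ℕ) (i : Fin (2 * n + 1)) : |db n i| ≤ 1 := by
  unfold db
  split_ifs
  · norm_num
  · rw [abs_pow]; norm_num

theorem lower (n : ℕ) (hn : 1 ≤ n) : √((8 * n + 1) / 8) ∈ edges 2 (2 * n + 1) := by
  set s : ℝ := √((8 * n + 1) / 8) with hs
  have hpos : (0 : ℝ) < (8 * n + 1) / 8 := by positivity
  have hs0 : 0 < s := Real.sqrt_pos.2 hpos
  have hs2 : s ^ 2 = (8 * n + 1) / 8 := Real.sq_sqrt hpos.le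
  refine ⟨hs0.le, ?_⟩
  -- the edge vectors
  let u : EuclideanSpace ℝ (Fin (2 * n + 1)) := WithLp.toLp 2 fun i => (da n i + db n i) / (2 * s)
  let v : EuclideanSpace ℝ (Fin (2 * n + 1)) := WithLp.toLp 2 fun i => (da n i - db n i) / (2 * s)
  have hu : ∀ i, u i = (da n i + db n i) / (2 * s) := fun i => rfl
  have hv : ∀ i, v i = (da n i - db n i) / (2 * s) := fun i => rfl
  have h1 := sum_da n hn
  have h2 := sum_db n hn
  have h3 := sum_dab n hn
  have h4s : (2 * s) ^ 2 = 4 * n + 1 / 2 := by rw [mul_pow, hs2]; ring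
  have hne : (2 * s) ≠ 0 := by positivity
  have su : ∑ i, u i ^ 2 = 1 := by
    have e1 : ∀ i, u i ^ 2 = (da n i ^ 2 + db n i ^ 2 + 2 * (da n i * db n i)) / (2 * s) ^ 2 := by
      intro i; rw [hu, div_pow]; congr 1; ring
    simp only [e1]
    rw [← Finset.sum_div, Finset.sum_add_distrib, Finset.sum_add_distrib, ← Finset.mul_sum, h1, h2,
      h3, h4s, div_eq_one_iff_eq (by positivity)]
    ring
  have sv : ∑ i, v i ^ 2 = 1 := by
    have e1 : ∀ i, v i ^ 2 = (da n i ^ 2 + db n i ^ 2 - 2 * (da n i * db n i)) / (2 * s) ^ 2 := by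
      intro i; rw [hv, div_pow]; congr 1; ring
    simp only [e1]
    rw [← Finset.sum_div, Finset.sum_sub_distrib, Finset.sum_add_distrib, ← Finset.mul_sum, h1, h2,
      h3, h4s, div_eq_one_iff_eq (by positivity)]
    ring
  have suv : ∑ i, u i * v i = 0 := by
    have e1 : ∀ i, u i * v i = (da n i ^ 2 - db n i ^ 2) / (2 * s) ^ 2 := by
      intro i; rw [hu, hv, div_mul_div_comm]; congr 1 <;> ring
    simp only [e1]
    rw [← Finset.sum_div, Finset.sum_sub_distrib, h1, h2, sub_self, zero_div]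
  have hnu : ‖u‖ = 1 := by
    rw [EuclideanSpace.norm_eq]
    simp only [Real.norm_eq_abs, sq_abs]
    rw [su, Real.sqrt_one]
  have hnv : ‖v‖ = 1 := by
    rw [EuclideanSpace.norm_eq]
    simp only [Real.norm_eq_abs, sq_abs]
    rw [sv, Real.sqrt_one]
  have hin : inner ℝ u v = 0 := by
    simp only [PiLp.inner_apply]
    have : ∀ i, inner ℝ (u i) (v i) = u i * v i := by
      intro i; simp [mul_comm]
    simp only [this]
    exact suv
  have horth : Orthonormal ℝ ![u, v] := by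
    constructor
    · intro i
      fin_cases i
      · exact hnu
      · exact hnv
    · intro i j hij
      fin_cases i <;> fin_cases j
      · exact absurd rfl hij
      · exact hin
      · change inner ℝ v u = 0
        rw [real_inner_comm]; exact hin
      · exact absurd rfl hij
  -- the isometry
  let B := (EuclideanSpace.basisFun (Fin 2) ℝ)
  let T : EuclideanSpace ℝ (Fin 2) →ₗ[ℝ] EuclideanSpace ℝ (Fin (2 * n + 1)) :=
    B.toBasis.constr ℝ ![u, v]
  have hT : T ∘ B.toBasis = ![u, v] := by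
    funext i
    exact Module.Basis.constr_basis _ _ _ _
  have hB : Orthonormal ℝ B.toBasis := by
    rw [OrthonormalBasis.coe_toBasis]
    exact B.orthonormal
  let L : EuclideanSpace ℝ (Fin 2) →ₗᵢ[ℝ] EuclideanSpace ℝ (Fin (2 * n + 1)) :=
    T.isometryOfOrthonormal hB (by rw [hT]; exact horth)
  have hL : ∀ x : EuclideanSpace ℝ (Fin 2), L x = x 0 • u + x 1 • v := by
    intro x
    change T x = _
    have h5 := B.toBasis.constr_apply_fintype ℝ ![u, v] x
    rw [show T x = (B.toBasis.constr ℝ ![u, v]) x from rfl, h5, Fin.sum_univ_two]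
    rfl
  let p : EuclideanSpace ℝ (Fin (2 * n + 1)) :=
    WithLp.toLp 2 fun i => 1 / 2 - s / 2 * (u i + v i)
  let φ : EuclideanSpace ℝ (Fin 2) →ᵃⁱ[ℝ] EuclideanSpace ℝ (Fin (2 * n + 1)) :=
    { toAffineMap := L.toLinearMap.toAffineMap + AffineMap.const ℝ _ p
      norm_map := by
        intro x
        simp }
  have hφ : ∀ x, φ x = L x + p := fun x => rfl
  refine ⟨φ, ?_⟩
  rintro _ ⟨x, hx, rfl⟩ i
  have hx0 := hx 0
  have hx1 := hx 1
  rw [hφ, hL]
  have hval : (x 0 • u + x 1 • v + p) i =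
      1 / 2 + (x 0 - s / 2) * u i + (x 1 - s / 2) * v i := by
    simp only [PiLp.add_apply, PiLp.smul_apply, smul_eq_mul]
    change x 0 * u i + x 1 * v i + (1 / 2 - s / 2 * (u i + v i)) = _
    ring
  rw [hval]
  have hda := abs_le.1 (abs_da n i)
  have hdb := abs_le.1 (abs_db n i)
  have hus : s * u i = (da n i + db n i) / 2 := by
    rw [hu]; field_simp
  have hvs : s * v i = (da n i - db n i) / 2 := by
    rw [hv]; field_simp
  -- bound the two products
  have hb1 : |(x 0 - s / 2) * u i| ≤ |s * u i| / 2 := by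
    rw [abs_mul, abs_mul, abs_of_pos hs0]
    have : |x 0 - s / 2| ≤ s / 2 := by
      rw [abs_le]; constructor <;> linarith [hx0.1, hx0.2]
    have := mul_le_mul_of_nonneg_right this (abs_nonneg (u i))
    linarith
  have hb2 : |(x 1 - s / 2) * v i| ≤ |s * v i| / 2 := by
    rw [abs_mul, abs_mul, abs_of_pos hs0]
    have : |x 1 - s / 2| ≤ s / 2 := by
      rw [abs_le]; constructor <;> linarith [hx1.1, hx1.2]
    have := mul_le_mul_of_nonneg_right this (abs_nonneg (v i))
    linarith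
  have hb3 : |s * u i| + |s * v i| ≤ 1 := by
    rw [hus, hvs]
    rcases abs_cases ((da n i + db n i) / 2) with h | h <;>
      rcases abs_cases ((da n i - db n i) / 2) with h' | h' <;>
      rw [h.1, h'.1] <;> linarith [hda.1, hda.2, hdb.1, hdb.2]
  have hc1 := abs_le.1 hb1
  have hc2 := abs_le.1 hb2
  constructor <;> linarith [hc1.1, hc1.2, hc2.1, hc2.2]

/-- **The largest square in an odd-dimensional unit cube.** For every `n ≥ 1` the largest edge of
a square inscribed in `[0,1]^(2n+1)` is `√((8n+1)/8)`. -/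
theorem result (n : ℕ) (hn : 1 ≤ n) :
    IsGreatest (edges 2 (2 * n + 1)) (√((8 * n + 1) / 8)) ∧
      f 2 (2 * n + 1) = √((8 * n + 1) / 8) := by
  have h : IsGreatest (edges 2 (2 * n + 1)) (√((8 * n + 1) / 8)) :=
    ⟨lower n hn, fun s hs => upper n s hs⟩
  exact ⟨h, h.csSup_eq⟩

end Pool.Agent.Results.MP_befaea_co.ExactValue
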